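import Pool.Agent.Helper10.SP.GoalsA
import Pool.Agent.Helper10.Lin.PhDiv
import Pool.Agent.Helper29.SP.DDQ

/-!
# Packet SP DDA: the curvature of the leafwise metric
-/

open Complex Metric Set Filter Topology MeasureTheory
open scoped ContDiff ComplexConjugate ComplexOrder Manifold Matrix

namespace Pool.Agent.Helper57.SP

open Pool.Agent.Helper95.Lin Pool.Agent.Helper16.Abund Pool.Agent.Helper92.Orb
open Pool.Agent.Helper10.SP Pool.Agent.Helper10.Lin
open Pool.Agent.Helper29.SP

variable {n : ℕ}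

theorem hermi_star (H : Matrix (Fin n) (Fin n) ℂ) (e : Cn n) :
    star e ⬝ᵥ (Hᵀ *ᵥ e) = hermi H e e := by
  simp only [dotProduct, Matrix.mulVec, Matrix.transpose_apply, hermi, Finset.mul_sum,
    Pi.star_apply, RCLike.star_def]
  rw [Finset.sum_comm]
  refine Finset.sum_congr rfl (fun i _ => Finset.sum_congr rfl (fun j _ => ?_))
  ring

/-- The normalized kernel field. -/
theorem kerF (hLMF : S_LMF) (hKV : S_KV) (i : Fin n) (W : Set (Cn n)) (hW : IsOpen W)
    (Φ : Cn n → ℝ) (hΦ : ContDiffOn ℝ ∞ Φ W) (hC : CorankOne Φ W) :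
    KerF i (LM Φ) (Wi i Φ W) (kv i Φ) := by
  obtain ⟨_, _, h3, h4⟩ := hKV W hW Φ hΦ hC
  obtain ⟨hsm, hherm, hlev, hclos⟩ := hLMF W hW Φ hΦ
  have hsub : Wi i Φ W ⊆ W := fun x hx => hx.1
  refine
    { isOpen := (h3 i).1
      smH := fun j k => (hsm j k).mono hsub
      herm := fun x hx => ?_
      clos := fun x hx j k l => hclos x hx.1 j k l
      smv := (h3 i).2
      norm := fun x hx => (h4 i x hx).1
      ker := fun x hx => (h4 i x hx).2.1
      only := fun x hx => (h4 i x hx).2.2.1 }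
  have h1 : ((LM Φ x)ᵀ).PosSemidef := by
    refine Matrix.PosSemidef.of_dotProduct_mulVec_nonneg (hherm x hx.1).transpose (fun e => ?_)
    rw [hermi_star, ← hlev x hx.1]
    exact_mod_cast (hC x hx.1).1 e
  have h2 := h1.transpose
  rwa [Matrix.transpose_transpose] at h2

/-- Row derivative of a determinant along `Dv`. -/
theorem Dv_det {x : Cn n} {m : ℕ} (v : Cn n → Cn n) (R : Cn n → Matrix (Fin m) (Fin m) ℂ)
    (hR : ∀ i j, DifferentiableAt ℝ (fun y => R y i j) x) :
    Dv v (fun y => (R y).det) x =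
      ∑ l, ((R x).updateRow l (fun p => Dv v (fun y => R y l p) x)).det := by
  unfold Dv
  simp only [cd_det R hR, Finset.mul_sum]
  rw [Finset.sum_comm]
  refine Finset.sum_congr rfl fun l _ => ?_
  have h1 : (fun p => ∑ j, v x j * cd j (fun y => R y l p) x) =
      ∑ j, v x j • (fun p => cd j (fun y => R y l p) x) := by
    funext p
    simp
  rw [h1]
  have h2 : ∀ (s : Finset (Fin n)) (c : Fin n → ℂ) (w : Fin n → Fin m → ℂ),
      ((R x).updateRow l (∑ j ∈ s, c j • w j)).det =
        ∑ j ∈ s, c j * ((R x).updateRow l (w j)).det := by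
    intro s c w
    classical
    induction s using Finset.induction_on with
    | empty =>
      simp only [Finset.sum_empty]
      exact Matrix.det_eq_zero_of_row_eq_zero l (by simp)
    | insert a s ha ih =>
      rw [Finset.sum_insert ha, Finset.sum_insert ha, Matrix.det_updateRow_add,
        Matrix.det_updateRow_smul, ih]
  rw [h2]

/-- The derivative of the cofactor. -/
theorem Dv_cof (hDER : S_DER) (i : Fin n) (H : Cn n → Matrix (Fin n) (Fin n) ℂ) (W : Set (Cn n))
    (v : Cn n → Cn n) (hK : KerF i H W v) {x : Cn n} (hx : x ∈ W) :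
    Dv v (fun y => (H y).adjugate i i) x = - Matrix.trace (Bm v x) * (H x).adjugate i i := by
  have hO := hK.isOpen
  have hd : ∀ j k, DifferentiableAt ℝ (fun y => H y j k) x := fun j k =>
    ((hK.smH j k).contDiffAt (hO.mem_nhds hx)).differentiableAt (by simp)
  have hR : ∀ a b, DifferentiableAt ℝ
      (fun y => (H y).updateRow i (Pi.single i 1) a b) x := by
    intro a b
    by_cases ha : a = i
    · subst ha
      simp only [Matrix.updateRow_self]
      exact differentiableAt_const _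
    · simp only [Matrix.updateRow_ne ha]
      exact hd a b
  simp only [Matrix.adjugate_apply]
  rw [Dv_det v (fun y => (H y).updateRow i (Pi.single i 1)) hR]
  have hder := hDER i H W v hK x hx
  set R : Matrix (Fin n) (Fin n) ℂ := (H x).updateRow i (Pi.single i 1) with hRdef
  have h1 : ∀ l, (R.updateRow l (fun p => Dv v (fun y =>
      (H y).updateRow i (Pi.single i 1) l p) x)).det = - Bm v x l l * R.det := by
    intro l
    by_cases hl : l = i
    · subst hl
      have h2 : (fun p => Dv v (fun y => (H y).updateRow l (Pi.single l 1) l p) x) = 0 := by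
        funext p
        simp only [Matrix.updateRow_self, Pi.zero_apply]
        unfold Dv cd
        simp
      rw [h2, (hder.2.2.2.2.2.2 l).2, neg_zero, zero_mul]
      exact Matrix.det_eq_zero_of_row_eq_zero l (by simp)
    · have h2 : (fun p => Dv v (fun y => (H y).updateRow i (Pi.single i 1) l p) x) =
          ∑ m, (- Bm v x m l) • R m := by
        funext p
        simp only [Matrix.updateRow_ne hl]
        rw [hder.2.2.2.2.2.1 l p, Finset.sum_apply, ← Finset.sum_neg_distrib]
        refine Finset.sum_congr rfl fun m _ => ?_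
        by_cases hm : m = i
        · subst hm
          rw [(hder.2.2.2.2.2.2 l).2]
          simp
        · rw [hRdef, Pi.smul_apply, smul_eq_mul, Matrix.updateRow_ne hm]
          ring
      rw [h2, Matrix.det_updateRow_sum, smul_eq_mul]
  simp only [h1]
  rw [← Finset.sum_mul, Finset.sum_neg_distrib]
  rfl

theorem fderiv_log {D : Cn n → ℂ} {U : Set (Cn n)} (hU : IsOpen U) (hD : ContDiffOn ℝ ∞ D U)
    (hp : ∀ y ∈ U, (D y).im = 0 ∧ 0 < (D y).re) {x : Cn n} (hx : x ∈ U) (e : Cn n) :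
    fderiv ℝ (fun y => ((Real.log (D y).re : ℝ) : ℂ)) x e = fderiv ℝ D x e / D x := by
  have hDd : DifferentiableAt ℝ D x :=
    (hD.contDiffAt (hU.mem_nhds hx)).differentiableAt (by simp)
  have h1 : HasFDerivAt (fun y => (D y).re) (Complex.reCLM.comp (fderiv ℝ D x)) x :=
    Complex.reCLM.hasFDerivAt.comp x hDd.hasFDerivAt
  have h2 : HasFDerivAt (fun y => Real.log (D y).re)
      (((D x).re)⁻¹ • (Complex.reCLM.comp (fderiv ℝ D x))) x :=
    h1.log (hp x hx).2.ne'
  have h3 : HasFDerivAt (fun y => ((Real.log (D y).re : ℝ) : ℂ))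
      (Complex.ofRealCLM.comp (((D x).re)⁻¹ • (Complex.reCLM.comp (fderiv ℝ D x)))) x :=
    Complex.ofRealCLM.hasFDerivAt.comp x h2
  have h4 : HasFDerivAt (fun y => (((D y).re : ℝ) : ℂ))
      (Complex.ofRealCLM.comp (Complex.reCLM.comp (fderiv ℝ D x))) x :=
    Complex.ofRealCLM.hasFDerivAt.comp x h1
  have h5 : fderiv ℝ D x = Complex.ofRealCLM.comp (Complex.reCLM.comp (fderiv ℝ D x)) := by
    have h6 : D =ᶠ[𝓝 x] (fun y => (((D y).re : ℝ) : ℂ)) := by
      filter_upwards [hU.mem_nhds hx] with y hy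
      apply Complex.ext
      · simp
      · simp [(hp y hy).1]
    conv_lhs => rw [h6.fderiv_eq]
    exact h4.fderiv
  have h7 : D x = (((D x).re : ℝ) : ℂ) := by
    apply Complex.ext
    · simp
    · simp [(hp x hx).1]
  rw [h3.fderiv]
  have h8 : fderiv ℝ D x e = (((fderiv ℝ D x e).re : ℝ) : ℂ) := by
    have := congrArg (fun L => L e) h5
    exact this
  rw [h8]
  conv_rhs => rw [h7]
  simp only [ContinuousLinearMap.comp_apply, ContinuousLinearMap.smul_apply,
    Complex.reCLM_apply, Complex.ofRealCLM_apply, smul_eq_mul]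
  push_cast
  ring

theorem dda (hWIRT : S_WIRT) (hLMF : S_LMF) (hKV : S_KV) (hDER : S_DER) : S_DDA := by
  intro n i W hW Φ hΦ hC x hx
  have hK := kerF hLMF hKV i W hW Φ hΦ hC
  obtain ⟨_, hnn, _, _⟩ := hKV W hW Φ hΦ hC
  set v := kv i Φ with hv
  set U := Wi i Φ W with hUdef
  have hU : IsOpen U := hK.isOpen
  have hsub : U ⊆ W := fun y hy => hy.1
  have hvs : ∀ j, ContDiffOn ℝ ∞ (fun y => v y j) U := fun j => contDiffOn_pi.mp hK.smv j
  have hcd : ∀ f : Cn n → ℂ, ContDiffOn ℝ ∞ f U → ∀ l, ContDiffOn ℝ ∞ (cd l f) U :=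
    fun f hf l => ((hWIRT U hU f f hf hf).1 l).1
  have hcdb : ∀ f : Cn n → ℂ, ContDiffOn ℝ ∞ f U → ∀ l, ContDiffOn ℝ ∞ (cdb l f) U :=
    fun f hf l => ((hWIRT U hU f f hf hf).1 l).2
  have hDs : ∀ f : Cn n → ℂ, ContDiffOn ℝ ∞ f U → ContDiffOn ℝ ∞ (Dvb v f) U := by
    intro f hf
    unfold Dvb
    exact ContDiffOn.sum fun m _ => (contDiffOn_conj (hvs m)).mul (hcdb f hf m)
  -- the function Φ
  set F : Cn n → ℂ := fun y => ((Φ y : ℝ) : ℂ) with hF
  have hFs : ContDiffOn ℝ ∞ F U := Complex.ofRealCLM.contDiff.comp_contDiffOn (hΦ.mono hsub)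
  have hPhi : Dv v (Dvb v F) x = 0 := by
    have h1 : Dv v (Dvb v F) x = ∑ k, Dv v (fun y => conj (v y k) * cdb k F y) x :=
      Dv_sum hWIRT hU v Finset.univ (f := fun k y => conj (v y k) * cdb k F y)
        (fun k => (contDiffOn_conj (hvs k)).mul (hcdb F hFs k)) hx
    rw [h1]
    refine Finset.sum_eq_zero fun k _ => ?_
    rw [Dv_mul hWIRT hU v (contDiffOn_conj (hvs k)) (hcdb F hFs k) hx,
      Dv_conj hWIRT hU v (hvs k) hx, (hDER i (LM Φ) U v hK x hx).2.1 k, map_zero, zero_mul,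
      zero_add]
    have h2 : Dv v (cdb k F) x = 0 := by
      rw [← hK.ker x hx k]
      unfold Dv
      refine Finset.sum_congr rfl fun j _ => ?_
      rw [mul_comm]
      rfl
    rw [h2, mul_zero]
  -- the logarithm of the cofactor
  set D : Cn n → ℂ := fun y => (LM Φ y).adjugate i i with hD
  have hDsm : ContDiffOn ℝ ∞ D U := adj_contDiffOn U (LM Φ) hK.smH i i
  have hDp : ∀ y ∈ U, (D y).im = 0 ∧ 0 < (D y).re := by
    intro y hy
    have h1 := hnn y hy.1 i
    refine ⟨h1.1, lt_of_le_of_ne h1.2 fun h0 => hy.2 ?_⟩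
    exact Complex.ext h0.symm h1.1
  set L : Cn n → ℂ := fun y => ((Real.log (D y).re : ℝ) : ℂ) with hL
  have hLs : ContDiffOn ℝ ∞ L U := by
    have h1 : ContDiffOn ℝ ∞ (fun y => (D y).re) U :=
      Complex.reCLM.contDiff.comp_contDiffOn hDsm
    exact Complex.ofRealCLM.contDiff.comp_contDiffOn (h1.log fun y hy => (hDp y hy).2.ne')
  have hcdL : ∀ y ∈ U, ∀ l, cd l L y = cd l D y / D y := by
    intro y hy l
    unfold cd
    rw [fderiv_log hU hDsm hDp hy, fderiv_log hU hDsm hDp hy]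
    ring
  have hT : SM U (Tm v) := fun j l => hcdb _ (hvs j) l
  have hB : SM U (Bm v) := fun j l => hcd _ (hvs j) l
  have hDvL : ∀ y ∈ U, Dv v L y = - Matrix.trace (Bm v y) := by
    intro y hy
    have h1 : Dv v L y = Dv v D y / D y := by
      unfold Dv
      rw [Finset.sum_div]
      refine Finset.sum_congr rfl fun l _ => ?_
      rw [hcdL y hy l]
      ring
    rw [h1, Dv_cof hDER i (LM Φ) U v hK hy]
    exact mul_div_cancel_right₀ _ hy.2
  have hLL : Dv v (Dvb v L) x = qf v x := by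
    rw [(hDER i (LM Φ) U v hK x hx).2.2.1 L hLs, Dvb_congr hU hDvL hx v]
    have hBt : ContDiffOn ℝ ∞ (fun y => Matrix.trace (Bm v y)) U := by
      unfold Matrix.trace
      exact ContDiffOn.sum fun m _ => hB m m
    rw [Dvb_neg hWIRT hU v hBt hx, Dvb_trace hWIRT hU v hB hx]
    have h1 : DbM v (Bm v) x = -(Tm v x * mc (Tm v x)) := by
      ext j l
      exact (hDER i (LM Φ) U v hK x hx).2.2.2.2.1 j l
    rw [h1, Matrix.trace_neg, neg_neg]
    rfl
  -- conclusion
  have h1 : ∀ y ∈ U, Dvb v (fun y => ((laf i Φ y : ℝ) : ℂ)) y = Dvb v F y + - Dvb v L y := by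
    intro y hy
    have h2 : (fun y => ((laf i Φ y : ℝ) : ℂ)) = fun y => F y + - L y := by
      funext z
      simp only [hF, hL, laf, hD]
      push_cast
      ring
    rw [h2, Dvb_add hWIRT hU v hFs hLs.neg hy, Dvb_neg hWIRT hU v hLs hy]
  rw [Dv_congr hU h1 hx v, Dv_add hWIRT hU v (hDs F hFs) (hDs L hLs).neg hx,
    Dv_neg hWIRT hU v (hDs L hLs) hx, hPhi, hLL, zero_add]

end Pool.Agent.Helper57.SP
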