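import Pool.Agent.Helper10.SP.GoalsC

/-!
# Packet SP LIPP: Lipschitz bound
-/

open Complex Metric Set Filter Topology MeasureTheory
open scoped ContDiff ComplexConjugate ComplexOrder Manifold

namespace Pool.Agent.Helper57.SP

open Pool.Agent.Helper95.Lin Pool.Agent.Helper16.Abund Pool.Agent.Helper92.Orb
open Pool.Agent.Helper10.SP

theorem lipp (hACB : S_ACB) : S_LIPP := by
  intro b N c R r Φ hrR hΦ hpos
  have hO : IsOpen (Bd c R) := isOpen_iUnion fun _ => isOpen_ball
  have hKc : IsCompact (⋃ i, closedBall (c i) r) :=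
    isCompact_iUnion fun i => isCompact_closedBall (c i) r
  have hKU : (⋃ i, closedBall (c i) r) ⊆ Bd c R := by
    refine iUnion_mono fun i => ?_
    exact closedBall_subset_ball hrR
  have hrK : Bd c r ⊆ ⋃ i, closedBall (c i) r := iUnion_mono fun i => ball_subset_closedBall
  obtain ⟨C, hC1, hC⟩ := hACB (Bd c R) (Bd c R) _ _ Φ Φ hO hO hKc hKU hKc hKU hΦ hΦ hpos hpos
  refine ⟨C, hC1, fun V t hVo hVc hVr ht hmap hpot => ?_⟩
  have hVR : V ⊆ Bd c R := hVr.trans (hrK.trans hKU)
  have hmapR : MapsTo t.g V (Bd c R) := fun z hz => hKU (hrK (hmap hz))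
  have key := hC V t hVo hVR ht hmapR hpot
  refine ⟨fun z hz => ?_, fun x hx y hy => ?_⟩
  · obtain ⟨h1, h2, _⟩ := key z hz (hrK (hVr hz)) (hrK (hmap hz))
    exact ⟨h1, h2⟩
  · have h1 := Convex.norm_image_sub_le_of_norm_fderiv_le (𝕜 := ℂ) (f := t.g) (C := C)
      (s := V) (x := y) (y := x)
      (fun z hz => (ht.1 z hz).differentiableAt (hVo.mem_nhds hz))
      (fun z hz => ?_) hVc hy hx
    · exact h1
    · refine ContinuousLinearMap.opNorm_le_bound _ (by linarith) fun e => ?_
      exact ((key z hz (hrK (hVr hz)) (hrK (hmap hz))).2.2 e).1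

end Pool.Agent.Helper57.SP
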